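import Mathlib

/-!
# Near relations and simultaneous approximation

From a lower bound for simultaneous rational approximation of `θ_i`, `i ∈ T`, to the rank of the near
relations between `1`, the numbers `θ_i` and arbitrary numbers.
-/

set_option autoImplicit false

namespace Pool.Agent.Q189.RK

open Finset

section Fin

variable {m : ℕ}

/-- the matrix with first row `x` and the rows `v k` -/
def mat {R : Type*} (x : Fin (m + 1) → R) (v : Fin m → Fin (m + 1) → R) :
    Matrix (Fin (m + 1)) (Fin (m + 1)) R := Matrix.of (Fin.cons x v)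

/-- the maximal minors, with signs -/
def D {R : Type*} [CommRing R] (v : Fin m → Fin (m + 1) → R) (j : Fin (m + 1)) : R :=
  (mat (Pi.single j 1) v).det

lemma det_mat {R : Type*} [CommRing R] (x : Fin (m + 1) → R) (v : Fin m → Fin (m + 1) → R) :
    (mat x v).det = ∑ j, x j * D v j := by
  have h0 : ∀ y : Fin (m + 1) → R, mat y v = (mat 0 v).updateRow 0 y := by
    intro y
    ext i j
    unfold mat
    refine Fin.cases ?_ (fun i => ?_) i
    · simp
    · rw [Matrix.updateRow_ne (Fin.succ_ne_zero i)]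
      simp
  have h1 : x = ∑ j, x j • (Pi.single j (1 : R) : Fin (m + 1) → R) := by
    funext i
    rw [Finset.sum_apply]
    simp [Pi.single_apply]
  have h2 : ∀ s : Finset (Fin (m + 1)), ((mat 0 v).updateRow 0
      (∑ j ∈ s, x j • (Pi.single j (1 : R) : Fin (m + 1) → R))).det = ∑ j ∈ s, x j * D v j := by
    intro s
    induction s using Finset.induction_on with
    | empty =>
      rw [Finset.sum_empty, Finset.sum_empty]
      exact Matrix.det_eq_zero_of_row_eq_zero 0 (fun j => by simp)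
    | insert a s ha ih =>
      rw [Finset.sum_insert ha, Finset.sum_insert ha, Matrix.det_updateRow_add, ih,
        Matrix.det_updateRow_smul]
      unfold D
      rw [h0 (Pi.single a 1)]
  rw [h0 x]
  conv_lhs => rw [h1]
  exact h2 univ

lemma orth {R : Type*} [CommRing R] (v : Fin m → Fin (m + 1) → R) (k : Fin m) :
    ∑ j, v k j * D v j = 0 := by
  rw [← det_mat]
  refine Matrix.det_zero_of_row_eq (i := 0) (j := k.succ) (Fin.succ_ne_zero k).symm ?_
  funext j
  unfold mat
  simp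

/-- the basic estimate -/
lemma cross (v : Fin m → Fin (m + 1) → ℤ) (Θ : Fin (m + 1) → ℝ) (X δ : ℝ) (hX : 1 ≤ X)
    (hv : ∀ k j, |(v k j : ℝ)| ≤ X) (hδ : ∀ k, |∑ j, (v k j : ℝ) * Θ j| ≤ δ)
    (l l' : Fin (m + 1)) (hl : D v l ≠ 0) :
    |((D v l : ℤ) : ℝ) * Θ l' - ((D v l' : ℤ) : ℝ) * Θ l| ≤ m * ((m + 1).factorial * X ^ (m + 1)) * δ := by
  obtain ⟨w, hw⟩ : ∃ w : Fin m → Fin (m + 1) → ℝ, w = fun k j => (v k j : ℝ) := ⟨_, rfl⟩
  have hcast : ∀ j, ((D v j : ℤ) : ℝ) = D w j := by
    intro j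
    unfold D
    rw [show ((mat (Pi.single j 1) v).det : ℝ) = Int.castRingHom ℝ (mat (Pi.single j 1) v).det from rfl,
      RingHom.map_det]
    congr 1
    ext a b
    unfold mat
    rw [RingHom.mapMatrix_apply, Matrix.map_apply]
    refine Fin.cases ?_ (fun a => ?_) a
    · simp only [Matrix.of_apply, Fin.cons_zero, Pi.single_apply]
      split_ifs <;> simp
    · simp [hw]
  rw [hcast, hcast]
  have hl' : D w l ≠ 0 := by
    rw [← hcast]
    exact_mod_cast hl
  obtain ⟨u, hu⟩ : ∃ u : Fin (m + 1) → ℝ, u = fun j => D w l * Θ j - D w j * Θ l := ⟨_, rfl⟩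
  obtain ⟨M, hM⟩ : ∃ M : Matrix (Fin (m + 1)) (Fin (m + 1)) ℝ, M = mat (Pi.single l 1) w := ⟨_, rfl⟩
  have hMu : M.mulVec u = Fin.cons 0 (fun k => D w l * ∑ j, w k j * Θ j) := by
    funext i
    refine Fin.cases ?_ (fun k => ?_) i
    · rw [Fin.cons_zero, hM]
      unfold mat
      rw [Matrix.mulVec, dotProduct]
      simp only [Matrix.of_apply, Fin.cons_zero, Pi.single_apply, ite_mul, one_mul, zero_mul]
      rw [Finset.sum_ite_eq' univ l]
      simp [hu]
    · rw [Fin.cons_succ, hM]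
      unfold mat
      rw [Matrix.mulVec, dotProduct]
      simp only [Matrix.of_apply, Fin.cons_succ, hu]
      have h1 : ∀ j, w k j * (D w l * Θ j - D w j * Θ l) = D w l * (w k j * Θ j) - Θ l * (w k j * D w j) :=
        fun j => by ring
      rw [Finset.sum_congr rfl (fun j _ => h1 j), Finset.sum_sub_distrib, ← Finset.mul_sum, ← Finset.mul_sum,
        orth w k, mul_zero, sub_zero]
  have hadj : D w l * u l' = ∑ k : Fin m, M.adjugate l' k.succ * (D w l * ∑ j, w k j * Θ j) := by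
    have h1 : (M.adjugate * M).mulVec u = M.det • u := by
      rw [Matrix.adjugate_mul, Matrix.smul_mulVec, Matrix.one_mulVec]
    rw [← Matrix.mulVec_mulVec, hMu] at h1
    have h2 := congrFun h1 l'
    rw [Matrix.mulVec, dotProduct, Fin.sum_univ_succ] at h2
    simp only [Fin.cons_zero, mul_zero, zero_add, Fin.cons_succ, Pi.smul_apply, smul_eq_mul] at h2
    rw [h2]
    congr 1
    rw [hM]
    rfl
  have hu2 : u l' = ∑ k : Fin m, M.adjugate l' k.succ * ∑ j, w k j * Θ j := by
    refine mul_left_cancel₀ hl' ?_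
    rw [hadj, Finset.mul_sum]
    exact Finset.sum_congr rfl fun k _ => by ring
  have hu3 : D w l * Θ l' - D w l' * Θ l = u l' := by rw [hu]
  rw [hu3, hu2]
  have hentry : ∀ i j, |M i j| ≤ X := by
    intro i j
    rw [hM]
    unfold mat
    refine Fin.cases ?_ (fun k => ?_) i
    · simp only [Matrix.of_apply, Fin.cons_zero, Pi.single_apply]
      split_ifs
      · simpa using hX
      · rw [abs_zero]; linarith
    · simp only [Matrix.of_apply, Fin.cons_succ, hw]
      exact hv k j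
  have hadjb : ∀ i j, |M.adjugate i j| ≤ (m + 1).factorial * X ^ (m + 1) := by
    intro i j
    rw [Matrix.adjugate_apply]
    have h1 := Matrix.det_le (abv := AbsoluteValue.abs) (A := M.updateRow j (Pi.single i 1)) (x := X) (by
      intro a b
      rw [AbsoluteValue.abs_apply]
      by_cases hab : a = j
      · rw [hab, Matrix.updateRow_self, Pi.single_apply]
        split_ifs
        · simpa using hX
        · rw [abs_zero]; linarith
      · rw [Matrix.updateRow_ne hab]
        exact hentry a b)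
    rw [AbsoluteValue.abs_apply, Fintype.card_fin, nsmul_eq_mul] at h1
    exact h1
  calc |∑ k : Fin m, M.adjugate l' k.succ * ∑ j, w k j * Θ j|
      ≤ ∑ k : Fin m, |M.adjugate l' k.succ * ∑ j, w k j * Θ j| := Finset.abs_sum_le_sum_abs _ _
    _ ≤ ∑ k : Fin m, ((m + 1).factorial * X ^ (m + 1)) * δ := by
        refine Finset.sum_le_sum fun k _ => ?_
        rw [abs_mul]
        refine mul_le_mul (hadjb _ _) ?_ (abs_nonneg _) (by positivity)
        have := hδ k
        simpa [hw] using this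
    _ = _ := by
        rw [Finset.sum_const, card_univ, Fintype.card_fin, nsmul_eq_mul]
        ring

/-- the minors of independent vectors do not all vanish -/
lemma exists_D_ne (v : Fin m → Fin (m + 1) → ℤ) (hv : LinearIndependent ℤ v) : ∃ l, D v l ≠ 0 := by
  by_contra hcon
  push Not at hcon
  -- every vector is dependent on the `v k`
  have hdet : ∀ x : Fin (m + 1) → ℤ, (mat x v).det = 0 := by
    intro x
    rw [det_mat]
    exact Finset.sum_eq_zero fun j _ => by rw [hcon j, mul_zero]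
  have hx : ∀ x : Fin (m + 1) → ℤ, ¬ LinearIndependent ℤ (Fin.cons x v : Fin (m + 1) → Fin (m + 1) → ℤ) := by
    intro x hli
    obtain ⟨g, hg, hg0⟩ := Matrix.exists_vecMul_eq_zero_iff.2 (hdet x)
    refine hg ?_
    rw [Fintype.linearIndependent_iff] at hli
    funext i
    refine hli g ?_ i
    funext j
    have := congrFun hg0 j
    rw [Matrix.vecMul, dotProduct] at this
    rw [Finset.sum_apply]
    simpa [mat] using this
  -- so the rank of `ℤ ^ (m + 1)` is `m`
  have hle : Module.finrank ℤ (Fin (m + 1) → ℤ) ≤ m := by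
    have hmax : ∀ x : Fin (m + 1) → ℤ, ∃ a : ℤ, a ≠ 0 ∧ a • x ∈ Submodule.span ℤ (Set.range v) := by
      intro x
      by_contra hno
      push Not at hno
      refine hx x ?_
      rw [Fintype.linearIndependent_iff]
      intro g hg
      rw [Fin.sum_univ_succ] at hg
      simp only [Fin.cons_zero, Fin.cons_succ] at hg
      have h0 : g 0 = 0 := by
        by_contra h0
        refine hno (g 0) h0 ?_
        have : g 0 • x = - ∑ i : Fin m, g i.succ • v i := by
          rw [eq_neg_iff_add_eq_zero]; exact hg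
        rw [this]
        exact Submodule.neg_mem _ (Submodule.sum_mem _ fun i _ =>
          Submodule.smul_mem _ _ (Submodule.subset_span ⟨i, rfl⟩))
      rw [h0, zero_smul, zero_add] at hg
      intro i
      refine Fin.cases h0 (fun i => ?_) i
      exact Fintype.linearIndependent_iff.1 hv (fun i => g i.succ) hg i
    -- multiply the standard basis
    choose a ha hmem using fun i : Fin (m + 1) => hmax (Pi.single i 1)
    have hli : LinearIndependent ℤ (fun i : Fin (m + 1) =>
        (⟨a i • Pi.single i 1, hmem i⟩ : Submodule.span ℤ (Set.range v))) := by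
      rw [Fintype.linearIndependent_iff]
      intro g hg i
      have h1 := congrArg (fun z : Submodule.span ℤ (Set.range v) => (z : Fin (m + 1) → ℤ) i) hg
      simp only [AddSubmonoidClass.coe_finsetSum, SetLike.val_smul, Finset.sum_apply, Pi.smul_apply,
        Pi.single_apply, smul_eq_mul, ZeroMemClass.coe_zero, Pi.zero_apply] at h1
      rw [Finset.sum_eq_single i (fun j _ hj => by rw [if_neg hj.symm]; ring) (by simp)] at h1
      rw [if_pos rfl, mul_one] at h1
      exact (mul_eq_zero.1 h1).resolve_right (ha i)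
    have h2 := hli.fintype_card_le_finrank
    rw [Fintype.card_fin] at h2
    have h3 : Module.finrank ℤ (Submodule.span ℤ (Set.range v)) ≤ m := by
      have := finrank_range_le_card (R := ℤ) (b := v)
      rwa [Fintype.card_fin] at this
    omega
  rw [Module.finrank_fintype_fun_eq_card, Fintype.card_fin] at hle
  omega

lemma abs_D_le (v : Fin m → Fin (m + 1) → ℤ) (X : ℝ) (hv : ∀ k j, |(v k j : ℝ)| ≤ X)
    (l : Fin (m + 1)) : |((D v l : ℤ) : ℝ)| ≤ m.factorial * X ^ m := by
  obtain ⟨A, hA⟩ : ∃ A : Matrix (Fin m) (Fin m) ℤ, A = Matrix.of (fun k j => v k (l.succAbove j)) := ⟨_, rfl⟩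
  have h1 : D v l = (-1) ^ (l : ℕ) * A.det := by
    unfold D
    rw [Matrix.det_succ_row_zero, Finset.sum_eq_single l]
    · rw [hA]
      congr 1
      simp [mat]
    · intro j _ hj
      simp [mat, hj]
    · simp
  rw [h1]
  have h2 : (((-1 : ℤ) ^ (l : ℕ) * A.det : ℤ) : ℝ) = (-1) ^ (l : ℕ) * (A.map (Int.castRingHom ℝ)).det := by
    rw [← RingHom.mapMatrix_apply, ← RingHom.map_det]
    simp
  rw [h2, abs_mul, abs_pow, abs_neg, abs_one, one_pow, one_mul]
  have h3 := Matrix.det_le (abv := AbsoluteValue.abs) (A := A.map (Int.castRingHom ℝ)) (x := X) (by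
    intro a b
    rw [AbsoluteValue.abs_apply, Matrix.map_apply, hA]
    exact hv _ _)
  rw [AbsoluteValue.abs_apply, Fintype.card_fin, nsmul_eq_mul] at h3
  exact h3

end Fin

/-- **From simultaneous approximation to near relations.** -/
theorem rank_point {ι : Type} [Fintype ι] {m : ℕ} (e : ι ≃ Fin (m + 1)) (o : ι) (T : Finset ι) (z : ι → ℝ)
    (μ : ℕ) (hμ : 1 ≤ μ) (c : ℝ) (hc : 0 < c)
    (h : ∀ (p : ι → ℤ) (q : ℕ), 0 < q → ∃ i ∈ T, c / (q : ℝ) ^ μ ≤ |z i - (p i : ℝ) / q|) :
    ∃ c' : ℝ, 0 < c' ∧ ∀ Θ : ι → ℝ, Θ o = 1 → (∀ i ∈ T, Θ i = z i) → ∀ X : ℝ, 1 ≤ X →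
      ∀ v : Fin m → ι → ℤ, LinearIndependent ℤ v → (∀ k i, |(v k i : ℝ)| ≤ X) →
        ∃ k, c' / X ^ (m * μ + 1) ≤ |∑ i, (v k i : ℝ) * Θ i| := by
  obtain ⟨K, hK⟩ : ∃ K : ℝ, K = ((m : ℝ) + 1) * (m + 1).factorial := ⟨_, rfl⟩
  have hK0 : 0 < K := by rw [hK]; positivity
  have hK1 : (m.factorial : ℝ) ≤ K := by
    rw [hK]
    have h1 : (m.factorial : ℝ) ≤ (m + 1).factorial := by
      exact_mod_cast Nat.factorial_le (Nat.le_succ m)
    have h2 : (0 : ℝ) ≤ (m : ℝ) * (m + 1).factorial := by positivity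
    linarith
  refine ⟨min (1 / (2 * K)) (c / (2 * K ^ μ)), by positivity, ?_⟩
  intro Θ hΘ hz X hX v hv hvX
  obtain ⟨c', hc'⟩ : ∃ c' : ℝ, c' = min (1 / (2 * K)) (c / (2 * K ^ μ)) := ⟨_, rfl⟩
  rw [← hc']
  have hc0 : 0 < c' := by rw [hc']; positivity
  have hc1 : c' * (2 * K) ≤ 1 := by
    rw [← le_div_iff₀ (by positivity), hc']
    exact min_le_left _ _
  have hc2 : c' * (2 * K ^ μ) ≤ c := by
    rw [← le_div_iff₀ (by positivity), hc']
    exact min_le_right _ _
  by_contra hcon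
  push Not at hcon
  have hX0 : 0 < X := by linarith
  obtain ⟨δ, hδ⟩ : ∃ δ : ℝ, δ = c' / X ^ (m * μ + 1) := ⟨_, rfl⟩
  rw [← hδ] at hcon
  have hδ0 : 0 < δ := by rw [hδ]; positivity
  have hδX : δ * X ^ (m * μ + 1) = c' := by
    rw [hδ]
    field_simp
  -- coordinates
  obtain ⟨w, hw⟩ : ∃ w : Fin m → Fin (m + 1) → ℤ, w = fun k j => v k (e.symm j) := ⟨_, rfl⟩
  obtain ⟨Ψ, hΨ⟩ : ∃ Ψ : Fin (m + 1) → ℝ, Ψ = fun j => Θ (e.symm j) := ⟨_, rfl⟩
  have hwli : LinearIndependent ℤ w := by
    rw [Fintype.linearIndependent_iff] at hv ⊢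
    intro g hg
    refine hv g ?_
    funext i
    have := congrFun hg (e i)
    rw [Finset.sum_apply] at this ⊢
    simpa [hw] using this
  have hwX : ∀ k j, |(w k j : ℝ)| ≤ X := fun k j => by rw [hw]; exact hvX _ _
  have hwδ : ∀ k, |∑ j, (w k j : ℝ) * Ψ j| ≤ δ := by
    intro k
    have h1 : ∑ j, (w k j : ℝ) * Ψ j = ∑ i, (v k i : ℝ) * Θ i := by
      rw [← Equiv.sum_comp e]
      exact Finset.sum_congr rfl fun i _ => by simp [hw, hΨ]
    rw [h1]
    exact (hcon k).le
  obtain ⟨ε, hε⟩ : ∃ ε : ℝ, ε = m * ((m + 1).factorial * X ^ (m + 1)) * δ := ⟨_, rfl⟩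
  have hcross : ∀ l l', D w l ≠ 0 → |((D w l : ℤ) : ℝ) * Ψ l' - ((D w l' : ℤ) : ℝ) * Ψ l| ≤ ε := by
    intro l l' hl
    rw [hε]
    exact cross w Ψ X δ hX hwX hwδ l l' hl
  have hεle : ε ≤ K * X ^ (m + 1) * δ := by
    rw [hε, hK]
    have h1 : (m : ℝ) * ((m + 1).factorial * X ^ (m + 1)) ≤ ((m : ℝ) + 1) * (m + 1).factorial * X ^ (m + 1) := by
      rw [mul_assoc]
      gcongr
      linarith
    exact mul_le_mul_of_nonneg_right h1 hδ0.le
  have hε1 : ε < 1 := by
    have h1 : X ^ (m + 1) ≤ X ^ (m * μ + 1) := by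
      refine pow_le_pow_right₀ hX ?_
      have := Nat.le_mul_of_pos_right m hμ
      omega
    calc ε ≤ K * X ^ (m + 1) * δ := hεle
      _ ≤ K * X ^ (m * μ + 1) * δ := by gcongr
      _ = K * c' := by rw [← hδX]; ring
      _ < 1 := by nlinarith [mul_pos hK0 hc0]
  have hΨo : Ψ (e o) = 1 := by rw [hΨ]; simp [hΘ]
  obtain ⟨l, hl⟩ := exists_D_ne w hwli
  have ho : D w (e o) ≠ 0 := by
    intro ho
    have h1 := hcross l (e o) hl
    rw [ho, hΨo, Int.cast_zero, zero_mul, sub_zero, mul_one] at h1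
    have h2 : (1 : ℝ) ≤ |((D w l : ℤ) : ℝ)| := by exact_mod_cast Int.one_le_abs hl
    linarith
  -- the rational point
  obtain ⟨q, hq⟩ : ∃ q : ℕ, q = (D w (e o)).natAbs := ⟨_, rfl⟩
  have hq0 : 0 < q := by rw [hq]; exact Int.natAbs_pos.2 ho
  have hqR : (q : ℝ) = |((D w (e o) : ℤ) : ℝ)| := by
    rw [hq, Nat.cast_natAbs, Int.cast_abs]
  obtain ⟨i, hi, hle⟩ := h (fun i => (D w (e o)).sign * D w (e i)) q hq0
  have hq1 : (0 : ℝ) < q := by exact_mod_cast hq0
  have happ : |z i - ((((D w (e o)).sign * D w (e i) : ℤ)) : ℝ) / q| ≤ ε / q := by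
    have h1 := hcross (e o) (e i) ho
    rw [hΨo, mul_one] at h1
    have h2 : Ψ (e i) = z i := by
      rw [hΨ]
      simp [hz i hi]
    rw [h2] at h1
    have h3 : ((D w (e o) : ℤ) : ℝ) = ((D w (e o)).sign : ℝ) * q := by
      have h6 : D w (e o) = (D w (e o)).sign * (q : ℤ) := by
        rw [hq]
        exact (Int.sign_mul_natAbs (D w (e o))).symm
      exact_mod_cast congrArg (Int.cast : ℤ → ℝ) h6
    have h4 : (((D w (e o)).sign : ℤ) : ℝ) * (((D w (e o)).sign : ℤ) : ℝ) = 1 := by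
      have : (D w (e o)).sign * (D w (e o)).sign = 1 := by
        rcases lt_or_gt_of_ne ho with h5 | h5
        · rw [Int.sign_eq_neg_one_of_neg h5]; norm_num
        · rw [Int.sign_eq_one_of_pos h5]; norm_num
      exact_mod_cast this
    have h5 : |(((D w (e o)).sign : ℤ) : ℝ)| = 1 := by
      have : |(((D w (e o)).sign : ℤ) : ℝ)| * |(((D w (e o)).sign : ℤ) : ℝ)| = 1 := by
        rw [← abs_mul, h4, abs_one]
      nlinarith [abs_nonneg (((D w (e o)).sign : ℤ) : ℝ)]
    rw [le_div_iff₀ hq1]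
    calc |z i - ((((D w (e o)).sign * D w (e i) : ℤ)) : ℝ) / q| * q
        = |(z i - ((((D w (e o)).sign * D w (e i) : ℤ)) : ℝ) / q) * q| := by
          rw [abs_mul, abs_of_pos hq1]
      _ = |z i * q - (((D w (e o)).sign : ℤ) : ℝ) * ((D w (e i) : ℤ) : ℝ)| := by
          congr 1
          push_cast
          field_simp
      _ = |(((D w (e o)).sign : ℤ) : ℝ)| * |z i * q - (((D w (e o)).sign : ℤ) : ℝ) * ((D w (e i) : ℤ) : ℝ)| := by
          rw [h5, one_mul]
      _ = |((D w (e o) : ℤ) : ℝ) * z i - ((D w (e i) : ℤ) : ℝ)| := by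
          rw [← abs_mul, h3]
          congr 1
          linear_combination (-((D w (e i) : ℤ) : ℝ)) * h4
      _ ≤ ε := h1
  have hfin : c / (q : ℝ) ^ μ ≤ ε / q := hle.trans happ
  have hqX : (q : ℝ) ≤ K * X ^ m := by
    rw [hqR]
    calc |((D w (e o) : ℤ) : ℝ)| ≤ m.factorial * X ^ m := abs_D_le w X hwX _
      _ ≤ K * X ^ m := by gcongr
  obtain ⟨ν, rfl⟩ : ∃ ν, μ = ν + 1 := ⟨μ - 1, by omega⟩
  rw [div_le_div_iff₀ (by positivity) hq1] at hfin
  have h1 : c ≤ ε * (q : ℝ) ^ ν := by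
    have : c * q ≤ (ε * (q : ℝ) ^ ν) * q := by
      calc c * q ≤ ε * (q : ℝ) ^ (ν + 1) := hfin
        _ = _ := by ring
    exact le_of_mul_le_mul_right this hq1
  have h2 : c < c := by
    calc c ≤ ε * (q : ℝ) ^ ν := h1
      _ ≤ (K * X ^ (m + 1) * δ) * (K * X ^ m) ^ ν := by gcongr
      _ = K ^ (ν + 1) * (δ * X ^ (m * (ν + 1) + 1)) := by ring
      _ = K ^ (ν + 1) * c' := by rw [hδX]
      _ < c' * (2 * K ^ (ν + 1)) := by nlinarith [pow_pos hK0 (ν + 1), mul_pos (pow_pos hK0 (ν + 1)) hc0]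
      _ ≤ c := hc2
  exact lt_irrefl _ h2

/-- the span of the near relations -/
theorem finrank_le {ι : Type} [Fintype ι] {m : ℕ} (S : Set (ι → ℤ))
    (hS : ∀ v : Fin (m + 1) → ι → ℤ, LinearIndependent ℤ v → ∃ k, v k ∉ S) :
    Module.finrank ℚ (Submodule.span ℚ ((fun (v : ι → ℤ) => (fun i => (v i : ℚ))) '' S)) ≤ m := by
  by_contra hcon
  push Not at hcon
  obtain ⟨ι', hι⟩ : ∃ ι' : (ι → ℤ) → (ι → ℚ), ι' = fun v => (fun i => (v i : ℚ)) := ⟨_, rfl⟩
  rw [← hι] at hcon
  obtain ⟨B, hBS, hBspan, hBli⟩ := exists_linearIndependent ℚ (ι' '' S)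
  rw [← hBspan] at hcon
  have hBfin : B.Finite := hBli.setFinite
  have hcard : Module.finrank ℚ (Submodule.span ℚ B) = B.ncard := by
    have := hBfin.fintype
    rw [finrank_span_set_eq_card hBli, Set.toFinset_card, Set.ncard_eq_toFinset_card', Set.toFinset_card]
  rw [hcard] at hcon
  obtain ⟨f, hf⟩ : ∃ f : Fin (m + 1) → B, Function.Injective f := by
    have := hBfin.fintype
    have h1 : Fintype.card (Fin (m + 1)) ≤ Fintype.card B := by
      rw [Fintype.card_fin, ← Set.toFinset_card, ← Set.ncard_eq_toFinset_card']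
      omega
    exact (Function.Embedding.nonempty_of_card_le h1).elim fun e => ⟨e, e.injective⟩
  choose g hg using fun b : B => hBS b.2
  obtain ⟨k, hk⟩ := hS (fun k => g (f k)) (by
    have h1 : LinearIndependent ℚ (fun k => (f k : ι → ℚ)) := hBli.comp f hf
    rw [Fintype.linearIndependent_iff] at h1 ⊢
    intro w hw k
    have h2 := h1 (fun k => (w k : ℚ)) (by
      have h3 : ∀ k, (f k : ι → ℚ) = ι' (g (f k)) := fun k => (hg (f k)).2.symm
      simp only [h3]
      funext i
      rw [Finset.sum_apply]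
      have h4 := congrFun hw i
      rw [Finset.sum_apply] at h4
      simp only [Pi.smul_apply, smul_eq_mul, Pi.zero_apply] at h4 ⊢
      simp only [hι]
      exact_mod_cast h4) k
    exact_mod_cast h2)
  exact hk (hg (f k)).1

end Pool.Agent.Q189.RK
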